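import Pool.Agent.Y230.TH.TopFin

/-!
# The strong monodromy conjecture for ideals built from Thom-Sebastiani sums

We prove that every pole of the topological zeta function `Z_I` is a root of the Bernstein-Sato
polynomial `b_I` of Budur, Mustata and Saito (Q1) for all ideals `I` in the following class `𝓘`.

Let `𝓘` and `𝓗` be the least classes of ideals and of hypersurfaces with the following properties.

* `𝓘` contains the powers `(x ^ m)`; all non-zero ideals of `ℂ[x, y]`; the ideals of
  `ℂ[x₀, x₁, x₂]` generated by forms of the same degree, three of which are algebraically independent;
  the ideals generated by forms of the same degree without a common zero outside the origin; the ideals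
  whose numerical data come from Rees divisors; the ideals `(f_1, …, f_k)` in any number of variables
  with very general coefficients at the vertices of the Newton polytopes of the `f_i` and arbitrary
  other coefficients; the principal ideals `(h)` with `h` in `𝓗`; and `𝓘` is closed under sums and
  products in disjoint sets of variables.
* `𝓗` contains all plane curves and the polynomials with very general coefficients at the
  vertices of the Newton polytope and arbitrary other terms; for `(f_j)` in `𝓘` and `g` in `𝓗` it
  contains `∑ y_j f_j(x)` and `∑ y_j f_j(x) + g(z)`, with new variables `y_j`; and `𝓗` is closed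
  under products in disjoint sets of variables and under dropping variables which do not occur.

So `𝓘` contains for example `(F_1(x)) + (F_2(x')) + I(x'')` and `(F_1(x)) ∩ ((F_2(x')) + I(x''))`
(a product) for `F_1 = ∑ y_j f_j(x₁, x₂) + g(z₁, z₂)`, `F_2` of the same kind and `I` an arbitrary
ideal in two variables, and what is obtained if the constructions are repeated.

The zeta functions are the ones of the constructions: the Laplace transforms of the products of the
exponential polynomials for the sums (`Pool/Agent/Y229/LPDefs`, `Pool/Agent/Y230/TH/TopDefs`), so that
the poles of `Z_(I + J)` are among the sums `α + β` of poles; `b_(I + J)` and `b_(I J)` are determined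
by `b_I`, `b_J` (Budur, Mustata, Saito), and the `b`-function of `∑ y_j f_j(x) + g(z)` is controlled
by the microlocal `b`-function.
-/

set_option autoImplicit false

namespace Pool.Agent.Results.MP_ee8c61_ag.ThomSebastianiIdeals

open MvPolynomial Pool.Agent.W574.SM Pool.Agent.W574.RO Pool.Agent.H628R4.TP Pool.Agent.TH192.DT
  Pool.Agent.Y229 Pool.Agent.Y228.AT Pool.Agent.Y230.TH

/-- **The strong monodromy conjecture (Q1) for the ideals built from Thom-Sebastiani sums.**

Let `TT AllGlobal StrongHyp c A Z` be the classes of ideals (`c = false`) and of hypersurfaces
(`c = true`), given by a family `A` of generators `A.f j` in the variables `A.σ`, with their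
topological zeta functions `Z`, which are obtained from the ideals in `AllGlobal` and the
hypersurfaces in `StrongHyp` by sums and products in disjoint sets of variables, by
`∑ y_j f_j(x)` and by `∑ y_j f_j(x) + g(z)`.

Let `I` be the ideal generated by the `A.f j` and let `TT AllGlobal StrongHyp false A Z`. Let `b`
satisfy the functional equation `IsFunctionalEq A.f b` in the definition of `b_I` (`b_I` is the monic
polynomial of least degree which satisfies one). Then `b(s₀) = 0` for every pole `s₀` of `Z`. -/
theorem result (A : Fam) (Z : RatFunc ℂ) (h : TT AllGlobal StrongHyp false A Z)
    (b : Polynomial ℂ) (hb : IsFunctionalEq A.f b) (s₀ : ℂ) (hs : Z.denom.eval s₀ = 0) :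
    b.eval s₀ = 0 :=
  tt_ideal A Z h b hb s₀ hs

end Pool.Agent.Results.MP_ee8c61_ag.ThomSebastianiIdeals
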